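import Mathlib

set_option autoImplicit false

namespace Pool.Agent.H2.BD

open MeasureTheory

/-- BD-ADD. -/
theorem cube_add {l e : ℕ} (f : (Fin l → ℝ) → ℝ) (hf : Measurable f) :
    ∫ x in Set.Icc (0 : Fin (l + e) → ℝ) 1, f (fun i => x (Fin.castAdd e i)) =
      ∫ t in Set.Icc (0 : Fin l → ℝ) 1, f t := by
  have h1 := volume_measurePreserving_piCongrLeft (fun _ : Fin (l + e) => ℝ)
    (finSumFinEquiv : Fin l ⊕ Fin e ≃ Fin (l + e))
  have h2 := volume_measurePreserving_sumPiEquivProdPi_symm (fun _ : Fin l ⊕ Fin e => ℝ)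
  have h3 := h1.comp h2
  set Φ := (MeasurableEquiv.sumPiEquivProdPi (fun _ : Fin l ⊕ Fin e => ℝ)).symm.trans
    (MeasurableEquiv.piCongrLeft (fun _ : Fin (l + e) => ℝ)
      (finSumFinEquiv : Fin l ⊕ Fin e ≃ Fin (l + e))) with hΦ
  have h4 : MeasurePreserving Φ volume volume := h3
  have hl : ∀ (z : (Fin l → ℝ) × (Fin e → ℝ)) (i : Fin l), Φ z (Fin.castAdd e i) = z.1 i := by
    intro z i
    have : Φ z (finSumFinEquiv (Sum.inl i)) = z.1 i := by
      simp only [hΦ, MeasurableEquiv.trans_apply, MeasurableEquiv.coe_piCongrLeft]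
      rw [Equiv.piCongrLeft_apply_apply]
      rfl
    simpa using this
  have hr : ∀ (z : (Fin l → ℝ) × (Fin e → ℝ)) (i : Fin e), Φ z (Fin.natAdd l i) = z.2 i := by
    intro z i
    have : Φ z (finSumFinEquiv (Sum.inr i)) = z.2 i := by
      simp only [hΦ, MeasurableEquiv.trans_apply, MeasurableEquiv.coe_piCongrLeft]
      rw [Equiv.piCongrLeft_apply_apply]
      rfl
    simpa using this
  have hpre : Φ ⁻¹' (Set.Icc (0 : Fin (l + e) → ℝ) 1) =
      (Set.Icc (0 : Fin l → ℝ) 1) ×ˢ (Set.Icc (0 : Fin e → ℝ) 1) := by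
    ext z
    simp only [Set.mem_preimage, Set.mem_Icc, Set.mem_prod, Pi.le_def, Pi.zero_apply, Pi.one_apply]
    constructor
    · rintro ⟨ha, hb⟩
      refine ⟨⟨fun i => ?_, fun i => ?_⟩, ⟨fun i => ?_, fun i => ?_⟩⟩
      · have := ha (Fin.castAdd e i); rwa [hl] at this
      · have := hb (Fin.castAdd e i); rwa [hl] at this
      · have := ha (Fin.natAdd l i); rwa [hr] at this
      · have := hb (Fin.natAdd l i); rwa [hr] at this
    · rintro ⟨⟨ha, hb⟩, hc, hd⟩
      refine ⟨fun i => ?_, fun i => ?_⟩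
      · refine Fin.addCases (fun i => ?_) (fun i => ?_) i
        · rw [hl]; exact ha i
        · rw [hr]; exact hc i
      · refine Fin.addCases (fun i => ?_) (fun i => ?_) i
        · rw [hl]; exact hb i
        · rw [hr]; exact hd i
  rw [← h4.setIntegral_preimage_emb Φ.measurableEmbedding, hpre]
  have hvol : (volume : Measure ((Fin l → ℝ) × (Fin e → ℝ))) = volume.prod volume := rfl
  rw [hvol, ← Measure.prod_restrict]
  have h5 : ∀ z : (Fin l → ℝ) × (Fin e → ℝ), f (fun i => Φ z (Fin.castAdd e i)) = f z.1 := by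
    intro z; congr 1; funext i; exact hl z i
  simp only [h5]
  rw [integral_fun_fst]
  simp [Measure.real, Real.volume_Icc_pi]

end Pool.Agent.H2.BD
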