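import Mathlib

set_option autoImplicit false

namespace Pool.Agent.H2.BD

/-- BD-CHO. -/
theorem coeff_le (p : Polynomial ℂ) (m j : ℕ) (hm : p.natDegree ≤ m) :
    ‖p.coeff j‖ ≤ 2 ^ m * p.mahlerMeasure := by
  have h1 := Polynomial.norm_coeff_le_choose_mul_mahlerMeasure j p
  have h2 : ((p.natDegree.choose j : ℕ) : ℝ) ≤ 2 ^ m := by
    calc ((p.natDegree.choose j : ℕ) : ℝ) ≤ ((2 ^ p.natDegree : ℕ) : ℝ) := by
          exact_mod_cast Nat.choose_le_two_pow _ _
      _ = 2 ^ p.natDegree := by push_cast; rfl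
      _ ≤ 2 ^ m := pow_le_pow_right₀ (by norm_num) hm
  exact h1.trans (mul_le_mul_of_nonneg_right h2 p.mahlerMeasure_nonneg)

end Pool.Agent.H2.BD
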