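import Mathlib

set_option autoImplicit false

/-! # Project BD, stub COE (helper27): a divisor free of the variables in `Y` divides the coefficient -/

namespace Pool.Agent.H2.BD

open MvPolynomial

theorem dvd_coe {n : ℕ} (Y : Finset (Fin n)) (D Q : MvPolynomial (Fin n) ℤ) (hQ : Q ∣ D)
    (hY : ∀ i ∈ Y, Q.degreeOf i = 0) (s : Fin n →₀ ℕ)
    (hs : ∀ s' ∈ D.support, (∀ i ∈ Y, s' i = s i) → s' = s) :
    Q ∣ MvPolynomial.monomial s (D.coeff s) := by
  classical
  obtain ⟨R, rfl⟩ := hQ
  set R' : MvPolynomial (Fin n) ℤ :=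
    ∑ m ∈ R.support.filter (fun m => ∀ i ∈ Y, m i = s i), monomial m (R.coeff m) with hR'
  have hc : ∀ m, coeff m R' = if (∀ i ∈ Y, m i = s i) then coeff m R else 0 := by
    intro m
    rw [hR', coeff_sum]
    simp only [coeff_monomial]
    rw [Finset.sum_ite_eq' (R.support.filter (fun m => ∀ i ∈ Y, m i = s i)) m
      (fun m => coeff m R)]
    by_cases h1 : ∀ i ∈ Y, m i = s i
    · by_cases h2 : m ∈ R.support
      · rw [if_pos (Finset.mem_filter.2 ⟨h2, h1⟩), if_pos h1]
      · rw [if_neg (fun h => h2 (Finset.mem_filter.1 h).1), if_pos h1]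
        exact (notMem_support_iff.1 h2).symm
    · rw [if_neg (fun h => h1 (Finset.mem_filter.1 h).2), if_neg h1]
  have hQ0 : ∀ a, coeff a Q ≠ 0 → ∀ i ∈ Y, a i = 0 := by
    intro a ha i hi
    have h := hY i hi
    rw [degreeOf_eq_sup] at h
    have h2 := Finset.le_sup (f := fun m : Fin n →₀ ℕ => m i) (mem_support_iff.2 ha)
    rw [h] at h2
    exact Nat.le_zero.1 h2
  refine ⟨R', ?_⟩
  ext m
  symm
  rw [coeff_monomial, coeff_mul Q R' m]
  have hab : ∀ x ∈ Finset.HasAntidiagonal.antidiagonal m, coeff x.1 Q ≠ 0 →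
      ((∀ i ∈ Y, x.2 i = s i) ↔ (∀ i ∈ Y, m i = s i)) := by
    intro x hx hne
    have h1 := Finset.HasAntidiagonal.mem_antidiagonal.1 hx
    have h2 : ∀ i ∈ Y, x.2 i = m i := by
      intro i hi
      have h3 := DFunLike.congr_fun h1 i
      rw [Finsupp.add_apply, hQ0 x.1 hne i hi, zero_add] at h3
      exact h3
    constructor
    · intro h i hi
      rw [← h2 i hi]; exact h i hi
    · intro h i hi
      rw [h2 i hi]; exact h i hi
  by_cases hm : ∀ i ∈ Y, m i = s i
  · have h1 : ∑ x ∈ Finset.HasAntidiagonal.antidiagonal m, coeff x.1 Q * coeff x.2 R' = coeff m (Q * R) := by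
      rw [coeff_mul]
      refine Finset.sum_congr rfl (fun x hx => ?_)
      by_cases hne : coeff x.1 Q = 0
      · rw [hne, zero_mul, zero_mul]
      · rw [hc, if_pos ((hab x hx hne).2 hm)]
    rw [h1]
    by_cases hms : s = m
    · rw [if_pos hms, hms]
    · rw [if_neg hms]
      by_contra hne
      exact hms (hs m (mem_support_iff.2 (fun h => hne h)) hm).symm
  · have hms : ¬ s = m := by
      rintro rfl
      exact hm (fun i _ => rfl)
    rw [if_neg hms]
    refine Finset.sum_eq_zero (fun x hx => ?_)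
    by_cases hne : coeff x.1 Q = 0
    · rw [hne, zero_mul]
    · rw [hc, if_neg (fun h => hm ((hab x hx hne).1 h)), mul_zero]

end Pool.Agent.H2.BD
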