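import Pool.Agent.H2.BD.Lift
import Pool.Agent.H2.PG.CNT
import Pool.Agent.H2.PG.Binom
import Pool.Agent.H2.L.R_seed8.TH845.KN.B2

set_option autoImplicit false

/-! Lifts of bounded degree and bounded Mahler measure: bounded companions. -/

namespace Pool.Agent.H2.BD

open MeasureTheory Pool.Agent.H261R2.CM

variable {n : ℕ}

theorem degreeOf_setOne (Y : Finset (Fin n)) (Q : MvPolynomial (Fin n) ℤ) (i : Fin n)
    (hi : i ∈ Y) : (setOne Y Q).degreeOf i = 0 := by
  classical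
  unfold setOne
  induction Q using MvPolynomial.induction_on with
  | C a => rw [MvPolynomial.aeval_C, MvPolynomial.algebraMap_eq, MvPolynomial.degreeOf_C]
  | add p q hp hq =>
    rw [map_add]
    have := MvPolynomial.degreeOf_add_le i ((MvPolynomial.aeval fun i =>
      if i ∈ Y then (1 : MvPolynomial (Fin n) ℤ) else MvPolynomial.X i) p) ((MvPolynomial.aeval fun i =>
      if i ∈ Y then (1 : MvPolynomial (Fin n) ℤ) else MvPolynomial.X i) q)
    rw [hp, hq] at this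
    simpa using this
  | mul_X p j hp =>
    rw [map_mul, MvPolynomial.aeval_X]
    have h1 := MvPolynomial.degreeOf_mul_le i ((MvPolynomial.aeval fun i =>
      if i ∈ Y then (1 : MvPolynomial (Fin n) ℤ) else MvPolynomial.X i) p)
      (if j ∈ Y then (1 : MvPolynomial (Fin n) ℤ) else MvPolynomial.X j)
    rw [hp] at h1
    have h2 : (if j ∈ Y then (1 : MvPolynomial (Fin n) ℤ) else MvPolynomial.X j).degreeOf i = 0 := by
      split_ifs with h
      · exact MvPolynomial.degreeOf_one i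
      · rw [MvPolynomial.degreeOf_X, if_neg]
        rintro rfl
        exact h hi
    omega

theorem setOne_eq (Y : Finset (Fin n)) (Q : MvPolynomial (Fin n) ℤ)
    (h : ∀ i ∈ Y, Q.degreeOf i = 0) : setOne Y Q = Q := by
  classical
  conv_lhs => rw [Q.as_sum]
  conv_rhs => rw [Q.as_sum]
  rw [map_sum]
  refine Finset.sum_congr rfl fun s hs => ?_
  unfold setOne
  rw [MvPolynomial.aeval_monomial, MvPolynomial.algebraMap_eq, MvPolynomial.monomial_eq]
  congr 1
  refine Finsupp.prod_congr fun i hi => ?_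
  rw [if_neg]
  intro hY
  have h1 := MvPolynomial.monomial_le_degreeOf i hs
  rw [h i hY] at h1
  exact (Finsupp.mem_support_iff.1 hi) (Nat.le_zero.1 h1)

theorem relPrime {P : MvPolynomial (Fin n) ℤ} (hP : Irreducible P) (Y : Finset (Fin n))
    (hY : ∃ i ∈ Y, P.degreeOf i ≠ 0) (h0 : setOne Y P ≠ 0) : IsRelPrime (setOne Y P) P := by
  intro d hd1 hd2
  obtain ⟨e, he⟩ := hd2
  rcases hP.isUnit_or_isUnit he with h | h
  · exact h
  · exfalso
    have h1 : P ∣ setOne Y P := by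
      refine dvd_trans ?_ hd1
      rw [he]
      obtain ⟨u, hu⟩ := h
      rw [← hu]
      exact (Units.mul_right_dvd).2 dvd_rfl
    obtain ⟨R, hR⟩ := h1
    obtain ⟨i, hi, hdi⟩ := hY
    have hR0 : R ≠ 0 := by rintro rfl; rw [mul_zero] at hR; exact h0 hR
    have h2 := MvPolynomial.degreeOf_mul_eq (n := i) hP.ne_zero hR0
    rw [← hR, degreeOf_setOne Y P i hi] at h2
    omega

theorem irr (m : ℕ) (B : ℝ) : ∃ K : ℝ, 0 ≤ K ∧ ∀ (n : ℕ) (P : MvPolynomial (Fin n) ℤ)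
    (Y : Finset (Fin n)), Irreducible P → (∀ i ∈ Y, P.degreeOf i ≤ m) →
      (∃ i ∈ Y, P.degreeOf i ≠ 0) → mM P ≤ B → setOne Y P ≠ 0 →
        mx (setOne Y P) P ≤ Real.log (mM P) + K := by
  classical
  obtain ⟨m₀, hm₀⟩ := Pool.Agent.H887R3.LW.boyd_dim (B + 1) m
  have h2 : 0 ≤ Real.log 2 := Real.log_nonneg (by norm_num)
  have h3 : 0 ≤ Real.log ((m : ℝ) + 1) := Real.log_nonneg (by
    have : (0 : ℝ) ≤ m := Nat.cast_nonneg m
    linarith)
  have h4 : 0 ≤ (m : ℝ) * Real.log 2 + Real.log (m + 1) :=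
    add_nonneg (mul_nonneg (Nat.cast_nonneg _) h2) h3
  refine ⟨m₀ * (m * Real.log 2 + Real.log (m + 1)), mul_nonneg (Nat.cast_nonneg _) h4,
    fun n P Y hP hdeg hY hPB h0 => ?_⟩
  have hdim : Pool.Agent.H887R3.LW.newtonDim P < m₀ := by
    by_contra h
    push Not at h
    obtain ⟨i, hi, hdi⟩ := hY
    have := hm₀ n P hP h (Or.inr ⟨i, Nat.one_le_iff_ne_zero.2 hdi, hdeg i hi⟩)
    linarith
  obtain ⟨Bs, hB1, hB2, hB3⟩ := Pool.Agent.H2.PG.CntA.basis (fun i => i ∈ Y)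
    (Pool.Agent.H887R3.LW.newtonDim P)
    (vectorSpan ℝ (Pool.Agent.H887R3.LW.vecs ℝ P.support)) rfl
  have h5 := height hP.ne_zero m Y Bs (fun i hi => hB1 i hi) hdeg (by
    intro s hs s' hs' hag i hi
    have h6 : (fun j => ((s j : ℕ) : ℝ)) - (fun j => ((s' j : ℕ) : ℝ)) ∈
        vectorSpan ℝ (Pool.Agent.H887R3.LW.vecs ℝ P.support) := by
      have := vsub_mem_vectorSpan ℝ (s := Pool.Agent.H887R3.LW.vecs ℝ P.support)
        (p₁ := fun j => ((s j : ℕ) : ℝ)) (p₂ := fun j => ((s' j : ℕ) : ℝ)) ⟨s, hs, rfl⟩ ⟨s', hs', rfl⟩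
      exact this
    have h7 := hB3 _ h6 (fun j hj => by
      simp only [Pi.sub_apply]
      rw [hag j hj, sub_self]) i hi
    simp only [Pi.sub_apply] at h7
    have h8 : ((s i : ℕ) : ℝ) = ((s' i : ℕ) : ℝ) := by linarith
    exact_mod_cast h8)
  refine h5.trans ?_
  have h6 : (Bs.card : ℝ) ≤ m₀ := by exact_mod_cast hB2.trans hdim.le
  have := mul_le_mul_of_nonneg_right h6 h4
  linarith

/-- the natural numbers as a set of Mahler measures -/
def Nats : Set ℝ := {x : ℝ | ∃ a : ℕ, 1 ≤ a ∧ x = a}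

theorem BC_Nats : Pool.Agent.TH845.KN.BC Nats := by
  intro B
  refine ⟨Real.log (max B 1), ?_⟩
  rintro x ⟨⟨a, ha, rfl⟩, hB⟩
  have ha0 : (a : ℤ) ≠ 0 := by omega
  have hC : (MvPolynomial.C (a : ℤ) : MvPolynomial (Fin 1) ℤ) ≠ 0 := by
    rw [Ne, ← map_zero MvPolynomial.C, MvPolynomial.C_inj]; exact ha0
  have h1 := LL_length (le_refl 1) (MvPolynomial.C (a : ℤ) : MvPolynomial (Fin 1) ℤ) hC
    (Real.log (max B 1)) (by
      rw [Real.exp_log (lt_of_lt_of_le one_pos (le_max_right _ _))]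
      have h2 : (∑ s ∈ (MvPolynomial.C (a : ℤ) : MvPolynomial (Fin 1) ℤ).support,
          |(MvPolynomial.C (a : ℤ) : MvPolynomial (Fin 1) ℤ).coeff s|) = (a : ℤ) := by
        classical
        rw [MvPolynomial.C_apply, MvPolynomial.support_monomial, if_neg ha0, Finset.sum_singleton,
          MvPolynomial.coeff_monomial, if_pos rfl]
        simp
      rw [h2]
      push_cast
      exact (le_of_lt hB).trans (le_max_left _ _))
  rw [J.mM_C ha0] at h1
  simpa using h1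

theorem BC_LL (K : ℝ) : Pool.Agent.TH845.KN.BC (LL K) := fun _ => ⟨K, fun _ hx => hx.1⟩

theorem prod (m : ℕ) (B K : ℝ) (hK : ∀ (n : ℕ) (P : MvPolynomial (Fin n) ℤ)
    (Y : Finset (Fin n)), Irreducible P → (∀ i ∈ Y, P.degreeOf i ≤ m) →
      (∃ i ∈ Y, P.degreeOf i ≠ 0) → mM P ≤ B → setOne Y P ≠ 0 →
        mx (setOne Y P) P ≤ Real.log (mM P) + K) {n : ℕ} (Y : Finset (Fin n))
    (D : MvPolynomial (Fin n) ℤ) : D ≠ 0 → (∀ i ∈ Y, D.degreeOf i ≤ m) → mM D ≤ B →
      (∀ Q, Q ∣ D → (∀ i ∈ Y, Q.degreeOf i = 0) → ∃ a : ℕ, mM Q = a) → setOne Y D ≠ 0 →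
        mM (setOne Y D) ∈ Submonoid.closure (LL (Real.log B + K) ∪ Nats) := by
  induction D using UniqueFactorizationMonoid.induction_on_prime with
  | h₁ => intro h; exact absurd rfl h
  | h₂ u hu =>
    intro _ _ _ _ _
    have h1 : mM (1 : MvPolynomial (Fin n) ℤ) = 1 := by
      have := J.mM_C (k := n) (a := 1) one_ne_zero
      simpa using this
    have h2 : Associated (1 : MvPolynomial (Fin n) ℤ) (setOne Y u) :=
      (associated_one_iff_isUnit.2 (hu.map (setOne Y))).symm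
    rw [← J.mM_associated h2, h1]
    exact one_mem _
  | h₃ D p hD hp ih =>
    intro h0 hdeg hB hE h1
    have hp0 := hp.ne_zero
    have hm := mM_mul p D hp0 hD
    have hp1 := one_le_mM p hp0
    have hD1 := one_le_mM D hD
    rw [map_mul] at h1 ⊢
    have hs1 : setOne Y p ≠ 0 := left_ne_zero_of_mul h1
    have hs2 : setOne Y D ≠ 0 := right_ne_zero_of_mul h1
    have hpB : mM p ≤ B := by rw [hm] at hB; nlinarith
    have hDB : mM D ≤ B := by rw [hm] at hB; nlinarith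
    have hdp : ∀ i ∈ Y, p.degreeOf i ≤ m := by
      intro i hi
      have h2 := MvPolynomial.degreeOf_mul_eq (n := i) hp0 hD
      have := hdeg i hi
      omega
    have hdD : ∀ i ∈ Y, D.degreeOf i ≤ m := by
      intro i hi
      have h2 := MvPolynomial.degreeOf_mul_eq (n := i) hp0 hD
      have := hdeg i hi
      omega
    rw [mM_mul _ _ hs1 hs2]
    refine mul_mem ?_ (ih hD hdD hDB (fun Q hQ => hE Q (Dvd.dvd.mul_left hQ p)) hs2)
    apply Submonoid.subset_closure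
    by_cases hY : ∃ i ∈ Y, p.degreeOf i ≠ 0
    · left
      have hn : 1 ≤ n := by
        obtain ⟨i, _, _⟩ := hY
        have := i.2
        omega
      refine ⟨n, hn, setOne Y p, p, hs1, hp0, relPrime hp.irreducible Y hY hs1, ?_, rfl⟩
      refine (hK n p Y hp.irreducible hdp hY hpB hs1).trans ?_
      have := Real.log_le_log (lt_of_lt_of_le one_pos hp1) hpB
      linarith
    · right
      push Not at hY
      obtain ⟨a, ha⟩ := hE p (Dvd.intro _ rfl) hY
      rw [setOne_eq Y p hY]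
      refine ⟨a, ?_, ha⟩
      rw [ha] at hp1
      exact_mod_cast hp1

/-- the class of the measures of the specialisations -/
def lifts (κ : ℝ → ℕ) : Set ℝ :=
  {x : ℝ | ∃ n : ℕ, 1 ≤ n ∧ ∃ (D : MvPolynomial (Fin n) ℤ) (Y : Finset (Fin n)),
    (∀ i ∈ Y, D.degreeOf i ≤ κ x) ∧
    (∀ Q, Q ∣ D → (∀ i ∈ Y, Q.degreeOf i = 0) → ∃ a : ℕ, mM Q = a) ∧
    setOne Y D ≠ 0 ∧ x = mM (setOne Y D) ∧ mM D ≤ κ x}

theorem BC_lifts (κ : ℝ → ℕ) (hκ : Monotone κ) : Pool.Agent.TH845.KN.BC (lifts κ) := by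
  intro B
  obtain ⟨K, hK0, hK⟩ := irr (κ B) (κ B)
  obtain ⟨K', hK'⟩ := Pool.Agent.TH845.KN.BC_monoid
    (Pool.Agent.TH845.KN.BC.union (BC_LL (Real.log (κ B) + K)) BC_Nats) B
  refine ⟨K', ?_⟩
  rintro x ⟨⟨n, hn, D, Y, hdeg, hE, h0, rfl, hm⟩, hB⟩
  refine hK' ⟨?_, hB⟩
  have hD0 : D ≠ 0 := by rintro rfl; rw [map_zero] at h0; exact h0 rfl
  have hle : κ (mM (setOne Y D)) ≤ κ B := hκ (le_of_lt hB)
  exact prod (κ B) (κ B) K hK Y D hD0 (fun i hi => (hdeg i hi).trans hle)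
    (hm.trans (by exact_mod_cast hle)) hE h0

end Pool.Agent.H2.BD
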