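import Pool.Agent.H2.BD.Spec
import Pool.Agent.H2.PG.Struct

set_option autoImplicit false

/-! Determinants of bounded permanental growth. -/

namespace Pool.Agent.H2.BD

open MeasureTheory Pool.Agent.H261R2.CM Pool.Agent.H2.PG

variable {k E : ℕ}

theorem tv_sp (D : MvPolynomial (Fin (k + E)) ℤ) (t : Fin k → ℝ) :
    tv (sp k E D) t = tv D (Fin.addCases t (fun _ => 0)) := by
  unfold sp
  induction D using MvPolynomial.induction_on with
  | C a => rw [MvPolynomial.aeval_C, MvPolynomial.algebraMap_eq, J.tv_C, J.tv_C]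
  | add p q hp hq => rw [map_add, J.tv_add, J.tv_add, hp, hq]
  | mul_X p j hp =>
    rw [map_mul, J.tv_mul, J.tv_mul, hp, MvPolynomial.aeval_X, J.tv_X]
    congr 1
    unfold J.zz
    beta_reduce
    refine Fin.addCases (fun i => ?_) (fun i => ?_) j
    · rw [Fin.addCases_left, Fin.addCases_left, J.tv_X]
      rfl
    · rw [Fin.addCases_right, Fin.addCases_right, J.tv_one]
      simp

theorem mM_sp (D : MvPolynomial (Fin (k + E)) ℤ) : mM (setOne (YY k E) D) = mM (sp k E D) := by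
  unfold mM
  congr 1
  have h1 := cube_add (e := E) (fun t : Fin k → ℝ => Real.log ‖tv (sp k E D) t‖)
    (Real.measurable_log.comp (tv_cont (sp k E D)).norm.measurable)
  rw [← h1]
  refine integral_congr_ae (Filter.Eventually.of_forall fun x => ?_)
  simp only
  rw [tv_setOne, tv_sp]
  congr 3
  funext i
  refine Fin.addCases (fun i => ?_) (fun i => ?_) i
  · rw [Fin.addCases_left, if_neg]
    intro hi
    obtain ⟨j, -, hj⟩ := Finset.mem_image.1 hi
    have := congrArg Fin.val hj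
    simp at this
    omega
  · rw [Fin.addCases_right, if_pos]
    exact Finset.mem_image.2 ⟨i, Finset.mem_univ _, rfl⟩

theorem mem_YY {k E : ℕ} {i : Fin (k + E)} : i ∈ YY k E ↔ k ≤ (i : ℕ) := by
  constructor
  · intro hi
    obtain ⟨j, -, rfl⟩ := Finset.mem_image.1 hi
    simp
  · intro hi
    refine Finset.mem_image.2 ⟨⟨i - k, by have := i.2; omega⟩, Finset.mem_univ _, ?_⟩
    apply Fin.ext
    simp
    omega

theorem MA_prim {D : MvPolynomial (Fin (k + E)) ℤ} (h : MA (fun i => k ≤ (i : ℕ)) D) (hD : D ≠ 0) :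
    ∀ Q, Q ∣ D → (∀ i ∈ YY k E, Q.degreeOf i = 0) → ∃ a : ℕ, mM Q = a := by
  intro Q hQ hY
  obtain ⟨s0, hs0⟩ := MvPolynomial.support_nonempty.2 hD
  have h1 := dvd_coe (YY k E) D Q hQ hY s0 (fun s' hs' hag =>
    h.2.2 s' hs' s0 hs0 fun i hi => hag i (mem_YY.2 hi))
  obtain ⟨a, b, -, hb, hQ2⟩ :=
    (MvPolynomial.dvd_monomial_iff_exists (MvPolynomial.mem_support_iff.1 hs0)).1 h1
  have hb0 : b ≠ 0 := by
    rintro rfl
    obtain ⟨c, hc⟩ := hb
    rw [zero_mul] at hc
    exact MvPolynomial.mem_support_iff.1 hs0 hc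
  exact ⟨b.natAbs, by rw [hQ2, mM_monomial a b hb0]⟩

theorem growth_mem (κ : ℝ → ℕ) {n : ℕ} (hk : 1 ≤ k)
    (A : Matrix (Fin n) (Fin n) (MvPolynomial (Fin k) ℤ)) (h0 : A.det ≠ 0) (N : ℕ) [NeZero N]
    (hp : (((cover N A).permanent : ℤ) : ℝ) ≤ (κ (mM A.det) : ℝ) ^ (N ^ k)) :
    mM A.det ∈ lifts κ := by
  obtain ⟨E, d, rfl, hd⟩ := dat A
  have hsp : sp k E d.gen.det = d.mat.det := gen_sp d
  have hg0 : d.gen.det ≠ 0 := by
    intro h
    rw [h, map_zero] at hsp
    exact h0 hsp.symm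
  have hN : N ^ k ≠ 0 := pow_ne_zero _ (NeZero.ne N)
  rw [← perm_cast d N _ (hd N)] at hp
  have h1 : mM d.gen.det ≤ κ (mM d.mat.det) :=
    (pow_le_pow_iff_left₀ (by have := one_le_mM _ hg0; linarith) (Nat.cast_nonneg _) hN).1
      ((gen_pow d N hg0).trans hp)
  have h2 : (1 : ℝ) ≤ κ (mM d.mat.det) := (one_le_mM _ hg0).trans h1
  have h3 : 1 ≤ κ (mM d.mat.det) := by exact_mod_cast h2
  have hMA := det d
  refine ⟨k + E, by omega, d.gen.det, YY k E, ?_, MA_prim hMA hg0, ?_, ?_, h1⟩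
  · intro i hi
    refine le_trans (MvPolynomial.degreeOf_le_iff.2 fun s hs => ?_) h3
    exact hMA.1 s hs i (mem_YY.1 hi)
  · intro h4
    have h5 := mM_sp d.gen.det
    have h6 : ∀ x : Fin (k + E) → ℝ, tv (setOne (YY k E) d.gen.det) x =
        tv (sp k E d.gen.det) (fun i => x (Fin.castAdd E i)) := by
      intro x
      rw [tv_setOne, tv_sp]
      congr 1
      funext i
      refine Fin.addCases (fun i => ?_) (fun i => ?_) i
      · rw [Fin.addCases_left, if_neg]
        rw [mem_YY]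
        simp
      · rw [Fin.addCases_right, if_pos]
        rw [mem_YY]
        simp
    have h7 : ∀ t : Fin k → ℝ, tv (sp k E d.gen.det) t = 0 := by
      intro t
      have h8 := h6 (Fin.addCases t (fun _ => 0))
      simp only [Fin.addCases_left] at h8
      rw [← h8, h4, J.tv_eq, map_zero]
    rw [hsp] at h7
    have h8 := F_zero_null h0
    have hvol : volume (Set.Icc (0 : Fin k → ℝ) 1) ≠ 0 := by
      rw [Real.volume_Icc_pi]
      simp
    have h9 : ∀ᵐ t ∂(volume.restrict (Set.Icc (0 : Fin k → ℝ) 1)), False := by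
      filter_upwards [h8] with t ht
      exact ht (h7 t)
    rw [Filter.eventually_false_iff_eq_bot, ae_eq_bot, Measure.restrict_eq_zero] at h9
    exact hvol h9
  · rw [mM_sp, hsp]

end Pool.Agent.H2.BD
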