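import Pool.Agent.H2.BD.Class

set_option autoImplicit false

/-! Pairs of bounded height have lifts of degree one and bounded Mahler measure. -/

namespace Pool.Agent.H2.BD

open MeasureTheory Pool.Agent.H261R2.CM

theorem mx_rename {k : ℕ} (F G : MvPolynomial (Fin k) ℤ) :
    mx (MvPolynomial.rename Fin.succ F) (MvPolynomial.rename Fin.succ G) = mx F G := by
  unfold mx
  simp_rw [J.tv_rename]
  have h := J.cube_split (k := k) (fun _ => 1) (fun y => Real.log (max ‖tv F y‖ ‖tv G y‖))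
  simp only [one_mul] at h
  rw [h]
  have h1 : (∫ _ in Set.Icc (0 : ℝ) 1, (1 : ℝ)) = 1 := by
    rw [setIntegral_const, measureReal_def, Real.volume_Icc]
    simp
  rw [h1, one_mul]

/-- the measure of `F + X_i G` -/
theorem pair_meas {n : ℕ} (i : Fin n) (F G : MvPolynomial (Fin n) ℤ) (hG : G ≠ 0)
    (hF : F.degreeOf i = 0) (hGi : G.degreeOf i = 0) (h0 : F + MvPolynomial.X i * G ≠ 0) :
    IntegrableOn (fun t => Real.log (max ‖tv F t‖ ‖tv G t‖)) (Set.Icc (0 : Fin n → ℝ) 1) ∧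
      Real.log (mM (F + MvPolynomial.X i * G)) = mx F G := by
  have hconst : ∀ (F : MvPolynomial (Fin n) ℤ), F.degreeOf i = 0 → ∀ (x : Fin n → ℝ) (w : ℝ),
      tv F (Function.update x i w) = tv F x := by
    intro F hF x w
    have h2 := K8.eval_slice x i F w
    have h3 := K8.eval_slice x i F (x i)
    rw [Function.update_eq_self] at h3
    have h4 : (K8.slice x i F).natDegree = 0 := by
      have := K8.natDegree_slice x i F
      omega
    rw [Polynomial.eq_C_of_natDegree_eq_zero h4] at h2 h3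
    rw [Polynomial.eval_C] at h2 h3
    rw [← h2, ← h3]
  have hval : ∀ (x : Fin n → ℝ) (w : ℝ),
      tv (F + MvPolynomial.X i * G) (Function.update x i w) = tv F x + tv G x * ez w := by
    intro x w
    rw [J.tv_add, J.tv_mul, J.tv_X, hconst F hF, hconst G hGi]
    have : J.zz (Function.update x i w) i = ez w := by
      unfold J.zz ez
      rw [Function.update_self]
    rw [this]
    ring
  obtain ⟨k', rfl⟩ : ∃ k', n = k' + 1 := ⟨n - 1, by have := i.2; omega⟩
  obtain ⟨h2, h3⟩ := K8.cube_slice i (fun x => Real.log ‖tv (F + MvPolynomial.X i * G) x‖)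
    (F_integrable h0)
  have h4 : (fun x : Fin (k' + 1) → ℝ => ∫ w in Set.Icc (0 : ℝ) 1,
      Real.log ‖tv (F + MvPolynomial.X i * G) (Function.update x i w)‖)
        =ᵐ[volume.restrict (Set.Icc 0 1)] fun t => Real.log (max ‖tv F t‖ ‖tv G t‖) := by
    filter_upwards [F_zero_null hG] with x hx
    rw [← Pool.Agent.H2.PG.int_lin _ _ hx]
    refine integral_congr_ae (Filter.Eventually.of_forall fun w => ?_)
    simp only
    rw [hval]
  refine ⟨(integrable_congr h4).1 h2, ?_⟩
  unfold mx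
  rw [← integral_congr_ae h4, h3, log_mM]

theorem zsub_eq {n : ℕ} (i : Fin n) (F : MvPolynomial (Fin n) ℤ) (h : F.degreeOf i = 0) :
    K8.zsub i F = F := by
  classical
  ext s
  rw [Pool.Agent.H2.PG.coeff_zsub]
  split_ifs with hs
  · rfl
  · by_contra hne
    have h1 := MvPolynomial.monomial_le_degreeOf i (MvPolynomial.mem_support_iff.2 (Ne.symm hne))
    omega

theorem LL_lift (K : ℝ) (x : ℝ) (hx : x ∈ LL K) : ∃ n : ℕ, 1 ≤ n ∧
    ∃ (D : MvPolynomial (Fin n) ℤ) (Y : Finset (Fin n)),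
      (∀ i ∈ Y, D.degreeOf i ≤ 1) ∧
      (∀ Q, Q ∣ D → (∀ i ∈ Y, Q.degreeOf i = 0) → mM Q = 1) ∧ Y.card = 1 ∧
      setOne Y D ≠ 0 ∧ x = mM (setOne Y D) ∧ mM D ≤ 2 * Real.exp K := by
  classical
  obtain ⟨k, hk, F, G, hF, hG, hFG, hK, rfl⟩ := hx
  set F' : MvPolynomial (Fin (k + 1)) ℤ := MvPolynomial.rename Fin.succ F with hF'
  set G' : MvPolynomial (Fin (k + 1)) ℤ := MvPolynomial.rename Fin.succ G with hG'
  have hF0 : F' ≠ 0 := J.rename_ne_zero hF
  have hG0 : G' ≠ 0 := J.rename_ne_zero hG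
  have hFd : F'.degreeOf 0 = 0 := J.degreeOf_zero_rename F
  have hGd : G'.degreeOf 0 = 0 := J.degreeOf_zero_rename G
  have hFGd : (F' - G').degreeOf 0 = 0 := by
    have := MvPolynomial.degreeOf_sub_le 0 F' G'
    rw [hFd, hGd] at this
    simpa using this
  set D : MvPolynomial (Fin (k + 1)) ℤ := (F' - G') + MvPolynomial.X 0 * G' with hD
  have hY : ∀ Q : MvPolynomial (Fin (k + 1)) ℤ, (∀ i ∈ ({0} : Finset (Fin (k + 1))),
      Q.degreeOf i = 0) ↔ Q.degreeOf 0 = 0 := by intro Q; simp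
  have hs : setOne {0} D = F' := by
    rw [hD, map_add, map_mul, setOne_eq {0} (F' - G') ((hY _).2 hFGd),
      setOne_eq {0} G' ((hY _).2 hGd)]
    have : setOne {0} (MvPolynomial.X 0 : MvPolynomial (Fin (k + 1)) ℤ) = 1 := by
      unfold setOne
      rw [MvPolynomial.aeval_X, if_pos (Finset.mem_singleton_self _)]
    rw [this]
    ring
  have hD0 : D ≠ 0 := by
    intro h
    rw [h, map_zero] at hs
    exact hF0 hs.symm
  have hXG : (MvPolynomial.X 0 * G').degreeOf 0 = 1 := by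
    rw [MvPolynomial.degreeOf_mul_eq (MvPolynomial.X_ne_zero 0) hG0, MvPolynomial.degreeOf_X,
      if_pos rfl, hGd]
  refine ⟨k + 1, by omega, D, {0}, ?_, ?_, by simp, ?_, ?_, ?_⟩
  · intro i hi
    rw [Finset.mem_singleton.1 hi]
    have := MvPolynomial.degreeOf_add_le 0 (F' - G') (MvPolynomial.X 0 * G')
    rw [hFGd, hXG] at this
    simpa using this
  · intro Q hQ hQY
    have hQ0 := (hY Q).1 hQY
    have h1 : Q ∣ F' := by
      have := map_dvd (setOne {0}) hQ
      rwa [setOne_eq {0} Q hQY, hs] at this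
    have h2 : Q ∣ F' - G' := by
      have := map_dvd (K8.zsub (0 : Fin (k + 1))) hQ
      rw [zsub_eq 0 Q hQ0, hD, map_add, map_mul, zsub_eq 0 _ hFGd] at this
      have hX : K8.zsub (0 : Fin (k + 1)) (MvPolynomial.X 0) = 0 := by simp [K8.zsub]
      rwa [hX, zero_mul, add_zero] at this
    have h3 : Q ∣ G' := by
      have := dvd_sub h1 h2
      rwa [sub_sub_cancel] at this
    have h4 : IsUnit Q := J.relPrime_rename hF hFG h1 h3
    have h5 : Associated (1 : MvPolynomial (Fin (k + 1)) ℤ) Q :=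
      (associated_one_iff_isUnit.2 h4).symm
    have h6 : mM (1 : MvPolynomial (Fin (k + 1)) ℤ) = 1 := by
      have := J.mM_C (k := k + 1) (a := 1) one_ne_zero
      simpa using this
    rw [← J.mM_associated h5, h6]
  · rw [hs]; exact hF0
  · rw [hs, J.mM_rename]
  · have h1 : F' + MvPolynomial.X 0 * G' ≠ 0 := by
      intro h
      have h2 := hXG
      rw [eq_neg_of_add_eq_zero_right h, MvPolynomial.degreeOf_neg, hFd] at h2
      exact zero_ne_one h2
    obtain ⟨i1, e1⟩ := pair_meas 0 (F' - G') G' hG0 hFGd hGd hD0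
    obtain ⟨i2, e2⟩ := pair_meas 0 F' G' hG0 hFd hGd h1
    have hc : IntegrableOn (fun _ : Fin (k + 1) → ℝ => Real.log 2)
        (Set.Icc (0 : Fin (k + 1) → ℝ) 1) := integrableOn_const (by simp [Real.volume_Icc_pi])
    have h2 : mx (F' - G') G' ≤ Real.log 2 + mx F' G' := by
      have h3 : mx (F' - G') G' ≤ ∫ t in Set.Icc (0 : Fin (k + 1) → ℝ) 1,
          (Real.log 2 + Real.log (max ‖tv F' t‖ ‖tv G' t‖)) := by
        unfold mx
        refine integral_mono_ae i1 (hc.add i2) ?_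
        filter_upwards [F_zero_null hG0] with t ht
        have h4 : 0 < ‖tv G' t‖ := norm_pos_iff.2 ht
        rw [← Real.log_mul (by norm_num) (lt_of_lt_of_le h4 (le_max_right _ _)).ne']
        refine Real.log_le_log (lt_of_lt_of_le h4 (le_max_right _ _)) (max_le ?_ ?_)
        · have h5 : tv (F' - G') t = tv F' t - tv G' t := by
            rw [J.tv_eq, map_sub, ← J.tv_eq, ← J.tv_eq]
          rw [h5]
          have h6 := norm_sub_le (tv F' t) (tv G' t)
          have h7 := le_max_left ‖tv F' t‖ ‖tv G' t‖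
          have h8 := le_max_right ‖tv F' t‖ ‖tv G' t‖
          linarith
        · have h7 := le_max_right ‖tv F' t‖ ‖tv G' t‖
          linarith
      rw [integral_add hc i2, int_const] at h3
      exact h3
    have h3 : mx F' G' = mx F G := mx_rename F G
    have h4 : Real.log (mM D) ≤ Real.log 2 + K := by
      rw [e1]; linarith
    have h5 : 0 < mM D := lt_of_lt_of_le one_pos (one_le_mM D hD0)
    rw [← Real.log_exp K, ← Real.log_mul (by norm_num) (Real.exp_pos K).ne'] at h4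
    exact (Real.log_le_log_iff h5 (by positivity)).1 h4

theorem lifts_of_BC (T : Set ℝ) (hT : Pool.Agent.TH845.KN.BC T) :
    ∃ κ : ℝ → ℕ, Monotone κ ∧ T ⊆ lifts κ := by
  choose K hK using hT
  set κ : ℝ → ℕ := fun x => (∑ j ∈ Finset.range (⌊x⌋₊ + 2), ⌈2 * Real.exp (K j)⌉₊) + 1 with hκ
  refine ⟨κ, ?_, ?_⟩
  · intro x y hxy
    simp only [hκ]
    have h1 : ⌊x⌋₊ ≤ ⌊y⌋₊ := Nat.floor_mono hxy
    have h2 : Finset.range (⌊x⌋₊ + 2) ⊆ Finset.range (⌊y⌋₊ + 2) :=
      Finset.range_subset_range.2 (by omega)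
    exact Nat.add_le_add_right (Finset.sum_le_sum_of_subset h2) 1
  · intro x hx
    have h1 : x < ((⌊x⌋₊ + 1 : ℕ) : ℝ) := by
      push_cast
      exact Nat.lt_floor_add_one x
    obtain ⟨n, hn, D, Y, h2, h3, -, h4, h5, h6⟩ := LL_lift _ x (hK _ ⟨hx, h1⟩)
    have h7 : ⌈2 * Real.exp (K ((⌊x⌋₊ + 1 : ℕ) : ℝ))⌉₊ ≤ κ x := by
      simp only [hκ]
      refine le_trans ?_ (Nat.le_succ _)
      exact Finset.single_le_sum (f := fun j : ℕ => ⌈2 * Real.exp (K (j : ℝ))⌉₊)
        (fun _ _ => Nat.zero_le _) (Finset.mem_range.2 (by omega))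
    refine ⟨n, hn, D, Y, fun i hi => (h2 i hi).trans ?_, fun Q hQ hQY => ⟨1, by
      rw [h3 Q hQ hQY]; simp⟩, h4, h5, ?_⟩
    · simp only [hκ]; omega
    · refine h6.trans ((Nat.le_ceil _).trans ?_)
      exact_mod_cast h7

end Pool.Agent.H2.BD
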