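import Pool.Agent.H2.BD.Part

set_option autoImplicit false

/-! Setting variables to one: the pair height with the polynomial itself. -/

namespace Pool.Agent.H2.BD

open MeasureTheory Pool.Agent.H261R2.CM

variable {n : ℕ}

/-- set the variables of `Y` to one -/
noncomputable def setOne (Y : Finset (Fin n)) :
    MvPolynomial (Fin n) ℤ →ₐ[ℤ] MvPolynomial (Fin n) ℤ :=
  MvPolynomial.aeval (fun i => if i ∈ Y then 1 else MvPolynomial.X i)

theorem tv_setOne_mono (Y : Finset (Fin n)) (s : Fin n →₀ ℕ) (a : ℤ) (x : Fin n → ℝ) :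
    tv (setOne Y (MvPolynomial.monomial s a)) x =
      a * ∏ l ∈ Finset.univ \ Y, J.zz x l ^ (s l) := by
  classical
  unfold setOne
  rw [MvPolynomial.aeval_monomial, MvPolynomial.algebraMap_eq, J.tv_mul, J.tv_C,
    Finsupp.prod_fintype _ _ (fun i => pow_zero _), J.tv_eq, map_prod]
  congr 1
  rw [← Finset.prod_sdiff (Finset.subset_univ Y)]
  have h1 : ∏ l ∈ Y, (J.tvh x) ((if l ∈ Y then (1 : MvPolynomial (Fin n) ℤ)
      else MvPolynomial.X l) ^ (s l)) = 1 := by
    refine Finset.prod_eq_one fun l hl => ?_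
    rw [if_pos hl, one_pow, map_one]
  rw [h1, mul_one]
  refine Finset.prod_congr rfl fun l hl => ?_
  rw [if_neg (Finset.mem_sdiff.1 hl).2, map_pow, ← J.tv_eq, J.tv_X]

theorem norm_setOne (Y : Finset (Fin n)) (Q : MvPolynomial (Fin n) ℤ)
    (h : ∀ s ∈ Q.support, ∀ s' ∈ Q.support, ∀ i ∈ Y, s i = s' i) (x : Fin n → ℝ) :
    ‖tv (setOne Y Q) x‖ = ‖tv Q x‖ := by
  classical
  by_cases hQ : Q = 0
  · rw [hQ, map_zero]
  obtain ⟨s0, hs0⟩ := MvPolynomial.support_nonempty.2 hQ
  have h1 : tv Q x = (∏ l ∈ Y, J.zz x l ^ (s0 l)) * tv (setOne Y Q) x := by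
    conv_lhs => rw [Q.as_sum, J.tv_eq, map_sum]
    conv_rhs => rw [Q.as_sum, map_sum, J.tv_eq, map_sum]
    rw [Finset.mul_sum]
    refine Finset.sum_congr rfl fun s hs => ?_
    rw [← J.tv_eq, ← J.tv_eq, J.tv_monomial, tv_setOne_mono,
      ← Finset.prod_sdiff (Finset.subset_univ Y)]
    have h2 : ∏ l ∈ Y, J.zz x l ^ (s l) = ∏ l ∈ Y, J.zz x l ^ (s0 l) :=
      Finset.prod_congr rfl fun l hl => by rw [h s hs s0 hs0 l hl]
    rw [h2]
    ring
  rw [h1, norm_mul, norm_prod]
  have : ∏ l ∈ Y, ‖J.zz x l ^ (s0 l)‖ = 1 :=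
    Finset.prod_eq_one fun l _ => by rw [norm_pow, J.norm_zz, one_pow]
  rw [this, one_mul]

/-- extension of a function on `B` by zero -/
def extend (B : Finset (Fin n)) (m : ℕ) (τ : B → Fin (m + 1)) (i : Fin n) : ℕ :=
  if h : i ∈ B then (τ ⟨i, h⟩ : ℕ) else 0

theorem sum_part (P : MvPolynomial (Fin n) ℤ) (m : ℕ) (B : Finset (Fin n))
    (hB : ∀ s ∈ P.support, ∀ i ∈ B, s i ≤ m) :
    P = ∑ τ : B → Fin (m + 1), part B (extend B m τ) P := by
  classical
  ext s
  rw [MvPolynomial.coeff_sum]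
  simp only [coeff_part]
  by_cases hs : s ∈ P.support
  · set τ₀ : B → Fin (m + 1) := fun i => ⟨s i.1, Nat.lt_succ_of_le (hB s hs i.1 i.2)⟩ with hτ
    rw [Finset.sum_eq_single τ₀]
    · rw [if_pos]
      intro i hi
      simp [extend, hi, hτ]
    · intro τ _ hne
      rw [if_neg]
      intro h
      apply hne
      funext i
      have := h i.1 i.2
      simp only [extend, i.2, dif_pos] at this
      apply Fin.ext
      simp only [hτ]
      exact this.symm
    · intro h; exact absurd (Finset.mem_univ _) h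
  · rw [MvPolynomial.notMem_support_iff.1 hs]
    simp

theorem int_const (c : ℝ) : ∫ _x in Set.Icc (0 : Fin n → ℝ) 1, c = c := by
  rw [setIntegral_const]
  simp [Measure.real, Real.volume_Icc_pi]

theorem height {P : MvPolynomial (Fin n) ℤ} (hP : P ≠ 0) (m : ℕ) (Y B : Finset (Fin n))
    (hBY : B ⊆ Y) (hY : ∀ i ∈ Y, P.degreeOf i ≤ m)
    (hB : ∀ s ∈ P.support, ∀ s' ∈ P.support, (∀ i ∈ B, s i = s' i) → ∀ i ∈ Y, s i = s' i) :
    mx (setOne Y P) P ≤ Real.log (mM P) + B.card * (m * Real.log 2 + Real.log (m + 1)) := by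
  classical
  obtain ⟨g, hg, hgi, hgσ⟩ := ext_bound hP m B fun i hi => hY i (hBY hi)
  have hsum := sum_part P m B fun s hs i hi =>
    (MvPolynomial.monomial_le_degreeOf i hs).trans (hY i (hBY hi))
  have hall : ∀ᵐ x ∂(volume.restrict (Set.Icc (0 : Fin n → ℝ) 1)), ∀ τ : B → Fin (m + 1),
      part B (extend B m τ) P ≠ 0 → Real.log ‖tv (part B (extend B m τ) P) x‖ ≤
        g x + B.card * (m * Real.log 2) := by
    rw [ae_all_iff]
    intro τ
    by_cases h : part B (extend B m τ) P = 0
    · exact Filter.Eventually.of_forall fun x h' => absurd h h'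
    · filter_upwards [hgσ _ h] with x hx _
      exact hx
  have hterm : ∀ (τ : B → Fin (m + 1)) (x : Fin n → ℝ),
      ‖tv (setOne Y (part B (extend B m τ) P)) x‖ = ‖tv (part B (extend B m τ) P) x‖ := by
    intro τ x
    apply norm_setOne
    intro s hs s' hs'
    have hs1 := support_part _ _ _ hs
    have hs2 := support_part _ _ _ hs'
    apply hB s hs1 s' hs2
    intro i hi
    rw [MvPolynomial.mem_support_iff, coeff_part] at hs hs'
    have h1 : ∀ i ∈ B, s i = extend B m τ i := by
      by_contra hcon; rw [if_neg hcon] at hs; exact hs rfl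
    have h2 : ∀ i ∈ B, s' i = extend B m τ i := by
      by_contra hcon; rw [if_neg hcon] at hs'; exact hs' rfl
    rw [h1 i hi, h2 i hi]
  have hb1 : ∀ x, ‖tv P x‖ ≤ ∑ τ : B → Fin (m + 1), ‖tv (part B (extend B m τ) P) x‖ := by
    intro x
    conv_lhs => rw [hsum, J.tv_eq, map_sum]
    exact norm_sum_le _ _
  have hb2 : ∀ x, ‖tv (setOne Y P) x‖ ≤
      ∑ τ : B → Fin (m + 1), ‖tv (part B (extend B m τ) P) x‖ := by
    intro x
    conv_lhs => rw [hsum, map_sum, J.tv_eq, map_sum]
    refine (norm_sum_le _ _).trans (le_of_eq ?_)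
    refine Finset.sum_congr rfl fun τ _ => ?_
    rw [← J.tv_eq, hterm]
  have hcard : Fintype.card (B → Fin (m + 1)) = (m + 1) ^ B.card := by simp
  have hae : ∀ᵐ x ∂(volume.restrict (Set.Icc (0 : Fin n → ℝ) 1)),
      Real.log (max ‖tv (setOne Y P) x‖ ‖tv P x‖) ≤
        g x + B.card * (m * Real.log 2 + Real.log (m + 1)) := by
    filter_upwards [hall, F_zero_null hP] with x hx hx0
    have h1 : ∑ τ : B → Fin (m + 1), ‖tv (part B (extend B m τ) P) x‖ ≤
        ((m + 1 : ℕ) : ℝ) ^ B.card * Real.exp (g x + B.card * (m * Real.log 2)) := by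
      calc ∑ τ : B → Fin (m + 1), ‖tv (part B (extend B m τ) P) x‖
          ≤ ∑ _τ : B → Fin (m + 1), Real.exp (g x + B.card * (m * Real.log 2)) := by
            refine Finset.sum_le_sum fun τ _ => ?_
            by_cases h : part B (extend B m τ) P = 0
            · rw [h, J.tv_eq, map_zero, norm_zero]
              exact (Real.exp_pos _).le
            · by_cases h0 : tv (part B (extend B m τ) P) x = 0
              · rw [h0, norm_zero]
                exact (Real.exp_pos _).le
              · rw [← Real.log_le_iff_le_exp (norm_pos_iff.2 h0)]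
                exact hx τ h
        _ = _ := by
            rw [Finset.sum_const, Finset.card_univ, hcard, nsmul_eq_mul]
            push_cast
            ring
    have h2 : 0 < max ‖tv (setOne Y P) x‖ ‖tv P x‖ :=
      lt_of_lt_of_le (norm_pos_iff.2 hx0) (le_max_right _ _)
    have h3 := Real.log_le_log h2 (max_le (hb2 x) (hb1 x))
    have h4 : 0 < ∑ τ : B → Fin (m + 1), ‖tv (part B (extend B m τ) P) x‖ :=
      lt_of_lt_of_le h2 (max_le (hb2 x) (hb1 x))
    have h5 := Real.log_le_log h4 h1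
    rw [Real.log_mul (by positivity) (Real.exp_pos _).ne', Real.log_exp, Real.log_pow] at h5
    push_cast at h5
    linarith
  have hr : IntegrableOn (fun x => g x + B.card * (m * Real.log 2 + Real.log (m + 1)))
      (Set.Icc (0 : Fin n → ℝ) 1) :=
    hg.add (integrableOn_const (by simp [Real.volume_Icc_pi]))
  have hri : ∫ x in Set.Icc (0 : Fin n → ℝ) 1,
      (g x + B.card * (m * Real.log 2 + Real.log (m + 1))) =
      Real.log (mM P) + B.card * (m * Real.log 2 + Real.log (m + 1)) := by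
    rw [integral_add hg (integrableOn_const (by simp [Real.volume_Icc_pi])), hgi, int_const]
  unfold mx
  by_cases hint : IntegrableOn (fun x => Real.log (max ‖tv (setOne Y P) x‖ ‖tv P x‖))
      (Set.Icc (0 : Fin n → ℝ) 1)
  · rw [← hri]
    exact integral_mono_ae hint hr hae
  · rw [integral_undef hint]
    have h1 : 0 ≤ Real.log (mM P) := Real.log_nonneg (one_le_mM P hP)
    have h2 : 0 ≤ Real.log 2 := Real.log_nonneg (by norm_num)
    have h3 : 0 ≤ Real.log ((m : ℝ) + 1) := Real.log_nonneg (by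
      have : (0 : ℝ) ≤ m := Nat.cast_nonneg m
      linarith)
    exact add_nonneg h1 (mul_nonneg (Nat.cast_nonneg _)
      (add_nonneg (mul_nonneg (Nat.cast_nonneg _) h2) h3))

end Pool.Agent.H2.BD
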