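import Mathlib

set_option autoImplicit false

/-! BD-SLI (helper67): slices of integrable functions and of null sets of the cube -/

namespace Pool.Agent.H2.BD

open MeasureTheory

namespace SLI

/-- the map splitting off one coordinate, on the cubes -/
theorem mp {n : ℕ} (i : Fin (n + 1)) :
    MeasurePreserving (MeasurableEquiv.piFinSuccAbove (fun _ : Fin (n + 1) => ℝ) i)
      (volume.restrict (Set.Icc (0 : Fin (n + 1) → ℝ) 1))
      ((volume.restrict (Set.Icc (0 : ℝ) 1)).prod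
        (volume.restrict (Set.Icc (0 : Fin n → ℝ) 1))) := by
  have h := (volume_preserving_piFinSuccAbove (fun _ : Fin (n + 1) => ℝ) i).restrict_preimage
    (s := Set.Icc (0 : ℝ) 1 ×ˢ Set.Icc (0 : Fin n → ℝ) 1) (measurableSet_Icc.prod measurableSet_Icc)
  have e : (MeasurableEquiv.piFinSuccAbove (fun _ : Fin (n + 1) => ℝ) i) ⁻¹'
      (Set.Icc (0 : ℝ) 1 ×ˢ Set.Icc (0 : Fin n → ℝ) 1) = Set.Icc (0 : Fin (n + 1) → ℝ) 1 := by
    ext x
    simp only [Set.mem_preimage, Set.mem_prod, Set.mem_Icc, Pi.le_def, Fin.forall_iff_succAbove i]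
    change (0 ≤ x i ∧ x i ≤ 1) ∧ (∀ j, 0 ≤ x (i.succAbove j)) ∧ (∀ j, x (i.succAbove j) ≤ 1) ↔
      (0 ≤ x i ∧ ∀ j, 0 ≤ x (i.succAbove j)) ∧ (x i ≤ 1 ∧ ∀ j, x (i.succAbove j) ≤ 1)
    tauto
  rw [e] at h
  rw [Measure.prod_restrict]
  exact h

/-- changing one coordinate in terms of the splitting -/
theorem upd {n : ℕ} (i : Fin (n + 1)) (x : Fin (n + 1) → ℝ) (w : ℝ) :
    (MeasurableEquiv.piFinSuccAbove (fun _ : Fin (n + 1) => ℝ) i).symm
      (w, (MeasurableEquiv.piFinSuccAbove (fun _ : Fin (n + 1) => ℝ) i x).2) =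
      Function.update x i w :=
  Fin.insertNth_removeNth (α := fun _ : Fin (n + 1) => ℝ) i w x

theorem prob : IsProbabilityMeasure (volume.restrict (Set.Icc (0 : ℝ) 1)) :=
  ⟨by simp⟩

/-- properties which hold for almost all points of the small cube -/
theorem lift {n : ℕ} (i : Fin (n + 1)) (q : (Fin n → ℝ) → Prop)
    (hq : ∀ᵐ y ∂(volume.restrict (Set.Icc (0 : Fin n → ℝ) 1)), q y) :
    ∀ᵐ x ∂(volume.restrict (Set.Icc (0 : Fin (n + 1) → ℝ) 1)),
      q (MeasurableEquiv.piFinSuccAbove (fun _ : Fin (n + 1) => ℝ) i x).2 := by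
  haveI := prob
  have h1 : ∀ᵐ z ∂((volume.restrict (Set.Icc (0 : ℝ) 1)).prod
        (volume.restrict (Set.Icc (0 : Fin n → ℝ) 1))), q z.2 :=
    Measure.quasiMeasurePreserving_snd.ae hq
  exact (mp i).quasiMeasurePreserving.ae h1

end SLI

theorem slice_int {n : ℕ} (i : Fin n) (h : (Fin n → ℝ) → ℝ)
    (hh : IntegrableOn h (Set.Icc (0 : Fin n → ℝ) 1)) :
    ∀ᵐ x ∂(volume.restrict (Set.Icc (0 : Fin n → ℝ) 1)),
      IntegrableOn (fun w : ℝ => h (Function.update x i w)) (Set.Icc (0 : ℝ) 1) := by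
  cases n with
  | zero => exact i.elim0
  | succ n =>
    have h1 : Integrable (fun z => h ((MeasurableEquiv.piFinSuccAbove
        (fun _ : Fin (n + 1) => ℝ) i).symm z)) ((volume.restrict (Set.Icc (0 : ℝ) 1)).prod
        (volume.restrict (Set.Icc (0 : Fin n → ℝ) 1))) := by
      rw [← (SLI.mp i).integrable_comp_emb (MeasurableEquiv.measurableEmbedding _)]
      refine hh.congr (Filter.Eventually.of_forall fun x => ?_)
      simp only [Function.comp_apply, MeasurableEquiv.symm_apply_apply]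
    have h2 := SLI.lift i _ h1.prod_left_ae
    filter_upwards [h2] with x hx
    simp only [SLI.upd] at hx
    exact hx

theorem slice_ae {n : ℕ} (i : Fin n) (p : (Fin n → ℝ) → Prop)
    (hp : ∀ᵐ x ∂(volume.restrict (Set.Icc (0 : Fin n → ℝ) 1)), p x) :
    ∀ᵐ x ∂(volume.restrict (Set.Icc (0 : Fin n → ℝ) 1)),
      ∀ᵐ w ∂(volume.restrict (Set.Icc (0 : ℝ) 1)), p (Function.update x i w) := by
  cases n with
  | zero => exact i.elim0
  | succ n =>
    have h1 : ∀ᵐ z ∂((volume.restrict (Set.Icc (0 : ℝ) 1)).prod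
        (volume.restrict (Set.Icc (0 : Fin n → ℝ) 1))), p ((MeasurableEquiv.piFinSuccAbove
        (fun _ : Fin (n + 1) => ℝ) i).symm z) :=
      ((SLI.mp i).symm _).quasiMeasurePreserving.ae hp
    have h2 : ∀ᵐ z ∂((volume.restrict (Set.Icc (0 : Fin n → ℝ) 1)).prod
        (volume.restrict (Set.Icc (0 : ℝ) 1))), p ((MeasurableEquiv.piFinSuccAbove
        (fun _ : Fin (n + 1) => ℝ) i).symm z.swap) :=
      Measure.measurePreserving_swap.quasiMeasurePreserving.ae h1
    have h3 := SLI.lift i _ (Measure.ae_ae_of_ae_prod h2)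
    filter_upwards [h3] with x hx
    simp only [Prod.swap_prod_mk, SLI.upd] at hx
    exact hx

end Pool.Agent.H2.BD
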