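import Pool.Agent.H2.L.R_seed8.H887R3.LW.MV8
import Pool.Agent.H2.L.R_seed8.H261R2.CM.K8
import Pool.Agent.H2.L.R_seed8.H261R2.CM.K6
import Pool.Agent.H2.BD.SLI
import Pool.Agent.H2.BD.CHO

set_option autoImplicit false

/-! The coefficients of a polynomial with respect to some variables and its Mahler measure. -/

namespace Pool.Agent.H2.BD

open MeasureTheory Pool.Agent.H261R2.CM

variable {n : ℕ}

open Classical in
/-- the terms of `Q` whose exponents agree with `σ` on `B` -/
noncomputable def part (B : Finset (Fin n)) (σ : Fin n → ℕ) (Q : MvPolynomial (Fin n) ℤ) :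
    MvPolynomial (Fin n) ℤ :=
  ∑ s ∈ Q.support.filter (fun s => ∀ i ∈ B, s i = σ i), MvPolynomial.monomial s (Q.coeff s)

open Classical in
theorem coeff_part (B : Finset (Fin n)) (σ : Fin n → ℕ) (Q : MvPolynomial (Fin n) ℤ)
    (s : Fin n →₀ ℕ) : (part B σ Q).coeff s = if ∀ i ∈ B, s i = σ i then Q.coeff s else 0 := by
  unfold part
  rw [MvPolynomial.coeff_sum]
  simp only [MvPolynomial.coeff_monomial]
  rw [Finset.sum_ite_eq' (Q.support.filter _) s]
  by_cases h : ∀ i ∈ B, s i = σ i
  · rw [if_pos h]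
    by_cases hs : s ∈ Q.support
    · rw [if_pos (Finset.mem_filter.2 ⟨hs, h⟩)]
    · rw [if_neg (fun h1 => hs (Finset.mem_filter.1 h1).1)]
      exact (MvPolynomial.notMem_support_iff.1 hs).symm
  · rw [if_neg h, if_neg (fun h1 => h (Finset.mem_filter.1 h1).2)]

theorem part_empty (σ : Fin n → ℕ) (Q : MvPolynomial (Fin n) ℤ) : part ∅ σ Q = Q := by
  ext s
  rw [coeff_part, if_pos (by simp)]

theorem part_insert (i : Fin n) (B : Finset (Fin n)) (σ : Fin n → ℕ)
    (Q : MvPolynomial (Fin n) ℤ) : part (insert i B) σ Q = part {i} σ (part B σ Q) := by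
  classical
  ext s
  rw [coeff_part, coeff_part, coeff_part]
  by_cases h1 : s i = σ i
  · by_cases h2 : ∀ j ∈ B, s j = σ j
    · rw [if_pos, if_pos, if_pos h2]
      · simpa using h1
      · intro j hj
        rcases Finset.mem_insert.1 hj with rfl | hj
        · exact h1
        · exact h2 j hj
    · rw [if_neg, if_pos, if_neg h2]
      · simpa using h1
      · intro h; exact h2 fun j hj => h j (Finset.mem_insert_of_mem hj)
  · rw [if_neg, if_neg]
    · simpa using h1
    · intro h; exact h1 (h i (Finset.mem_insert_self _ _))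

theorem support_part (B : Finset (Fin n)) (σ : Fin n → ℕ) (Q : MvPolynomial (Fin n) ℤ) :
    (part B σ Q).support ⊆ Q.support := by
  classical
  intro s hs
  rw [MvPolynomial.mem_support_iff, coeff_part] at hs
  split_ifs at hs with h
  · exact MvPolynomial.mem_support_iff.2 hs
  · exact absurd rfl hs

theorem degreeOf_part (B : Finset (Fin n)) (σ : Fin n → ℕ) (Q : MvPolynomial (Fin n) ℤ)
    (i : Fin n) : (part B σ Q).degreeOf i ≤ Q.degreeOf i :=
  MvPolynomial.degreeOf_le_iff.2 fun _ hs =>
    MvPolynomial.monomial_le_degreeOf i (support_part B σ Q hs)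

theorem slice_monomial (x : Fin n → ℝ) (i : Fin n) (s : Fin n →₀ ℕ) (a : ℤ) :
    K8.slice x i (MvPolynomial.monomial s a) =
      Polynomial.C ((a : ℂ) * ∏ l ∈ Finset.univ.erase i, J.zz x l ^ (s l)) *
        Polynomial.X ^ (s i) := by
  classical
  unfold K8.slice
  rw [MvPolynomial.coe_eval₂Hom, MvPolynomial.eval₂_monomial,
    Finsupp.prod_fintype _ _ (fun i => pow_zero _),
    ← Finset.mul_prod_erase Finset.univ _ (Finset.mem_univ i), if_pos rfl]
  have : ∏ l ∈ Finset.univ.erase i, (if l = i then (Polynomial.X : Polynomial ℂ)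
      else Polynomial.C (J.zz x l)) ^ (s l) =
      Polynomial.C (∏ l ∈ Finset.univ.erase i, J.zz x l ^ (s l)) := by
    rw [map_prod]
    refine Finset.prod_congr rfl fun l hl => ?_
    rw [if_neg (Finset.ne_of_mem_erase hl), map_pow]
  rw [this, eq_intCast, map_mul]
  have h2 : (Polynomial.C ((a : ℤ) : ℂ) : Polynomial ℂ) = (a : Polynomial ℂ) := by simp
  rw [h2]
  ring

theorem norm_part (x : Fin n → ℝ) (i : Fin n) (σ : Fin n → ℕ) (Q : MvPolynomial (Fin n) ℤ) :
    ‖tv (part {i} σ Q) x‖ = ‖(K8.slice x i Q).coeff (σ i)‖ := by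
  classical
  have h1 : (K8.slice x i Q).coeff (σ i) = ∑ s ∈ Q.support,
      if s i = σ i then ((Q.coeff s : ℤ) : ℂ) * ∏ l ∈ Finset.univ.erase i, J.zz x l ^ (s l)
        else 0 := by
    conv_lhs => rw [Q.as_sum, map_sum, Polynomial.finsetSum_coeff]
    refine Finset.sum_congr rfl fun s _ => ?_
    rw [slice_monomial, Polynomial.coeff_C_mul_X_pow]
    by_cases h : s i = σ i
    · rw [if_pos h, if_pos h.symm]
    · rw [if_neg h, if_neg (Ne.symm h)]
  have h2 : tv (part {i} σ Q) x = J.zz x i ^ (σ i) * (K8.slice x i Q).coeff (σ i) := by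
    rw [h1, J.tv_eq]
    unfold part
    rw [map_sum, Finset.sum_filter, Finset.mul_sum]
    refine Finset.sum_congr rfl fun s _ => ?_
    by_cases h : s i = σ i
    · rw [if_pos h, if_pos (by simpa using h), ← J.tv_eq, J.tv_monomial,
        ← Finset.mul_prod_erase Finset.univ _ (Finset.mem_univ i), h]
      ring
    · rw [if_neg h, if_neg (by simpa using h), mul_zero]
  rw [h2, norm_mul, norm_pow, J.norm_zz, one_pow, one_mul]

theorem ext_bound {P : MvPolynomial (Fin n) ℤ} (hP : P ≠ 0) (m : ℕ) (B : Finset (Fin n))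
    (hB : ∀ i ∈ B, P.degreeOf i ≤ m) : ∃ g : (Fin n → ℝ) → ℝ,
      IntegrableOn g (Set.Icc (0 : Fin n → ℝ) 1) ∧
      ∫ x in Set.Icc (0 : Fin n → ℝ) 1, g x = Real.log (mM P) ∧
      ∀ σ, part B σ P ≠ 0 → ∀ᵐ x ∂(volume.restrict (Set.Icc (0 : Fin n → ℝ) 1)),
        Real.log ‖tv (part B σ P) x‖ ≤ g x + B.card * (m * Real.log 2) := by
  classical
  induction B using Finset.induction_on with
  | empty =>
    refine ⟨fun x => Real.log ‖tv P x‖, F_integrable hP, (log_mM P).symm, fun σ _ => ?_⟩
    refine Filter.Eventually.of_forall fun x => ?_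
    rw [part_empty]
    simp
  | insert i B hi ih =>
    obtain ⟨g, hg, hgi, hgσ⟩ := ih fun j hj => hB j (Finset.mem_insert_of_mem hj)
    obtain ⟨n', rfl⟩ : ∃ n', n = n' + 1 := ⟨n - 1, by have := i.2; omega⟩
    obtain ⟨h1, h2⟩ := K8.cube_slice i g hg
    refine ⟨_, h1, h2.trans hgi, fun σ hσ => ?_⟩
    set Q := part B σ P with hQ
    have hQ' : part (insert i B) σ P = part {i} σ Q := part_insert i B σ P
    have hQ0 : Q ≠ 0 := by
      intro h
      apply hσ
      rw [hQ', h]
      ext s
      rw [coeff_part]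
      simp
    filter_upwards [slice_ae i _ (hgσ σ hQ0), slice_int i g hg,
      slice_int i _ (F_integrable hQ0), F_zero_null hσ] with x hx1 hx2 hx3 hx4
    have h3 : ∫ w in Set.Icc (0 : ℝ) 1, Real.log ‖tv Q (Function.update x i w)‖ ≤
        (∫ w in Set.Icc (0 : ℝ) 1, g (Function.update x i w)) + B.card * (m * Real.log 2) := by
      have hc : IntegrableOn (fun _ : ℝ => (B.card : ℝ) * (m * Real.log 2)) (Set.Icc (0 : ℝ) 1) :=
        integrableOn_const (by simp)
      have h4 : ∫ w in Set.Icc (0 : ℝ) 1, (g (Function.update x i w) +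
          (B.card : ℝ) * (m * Real.log 2)) =
          (∫ w in Set.Icc (0 : ℝ) 1, g (Function.update x i w)) + B.card * (m * Real.log 2) := by
        rw [integral_add hx2 hc]
        simp
      rw [← h4]
      exact integral_mono_ae hx3 (hx2.add hc) hx1
    have h5 : Real.log (K8.slice x i Q).mahlerMeasure =
        ∫ w in Set.Icc (0 : ℝ) 1, Real.log ‖tv Q (Function.update x i w)‖ := by
      rw [K8.log_mahler]
      refine integral_congr_ae (Filter.Eventually.of_forall fun w => ?_)
      simp only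
      rw [K8.eval_slice]
    have h6 : (K8.slice x i Q).natDegree ≤ m :=
      (K8.natDegree_slice x i Q).trans ((degreeOf_part B σ P i).trans
        (hB i (Finset.mem_insert_self _ _)))
    have h7 := coeff_le (K8.slice x i Q) m (σ i) h6
    rw [← norm_part, ← hQ'] at h7
    have h8 : 0 < ‖tv (part (insert i B) σ P) x‖ := norm_pos_iff.2 hx4
    have h9 : 0 < (K8.slice x i Q).mahlerMeasure := by
      by_contra hcon
      have : (K8.slice x i Q).mahlerMeasure = 0 :=
        le_antisymm (not_lt.1 hcon) (Polynomial.mahlerMeasure_nonneg _)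
      rw [this, mul_zero] at h7
      linarith
    have h10 : Real.log ‖tv (part (insert i B) σ P) x‖ ≤
        m * Real.log 2 + Real.log (K8.slice x i Q).mahlerMeasure := by
      rw [← Real.log_pow, ← Real.log_mul (by positivity) h9.ne']
      exact Real.log_le_log h8 h7
    rw [Finset.card_insert_of_notMem hi]
    push_cast
    rw [h5] at h10
    linarith

end Pool.Agent.H2.BD
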