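import Mathlib

/-! # BD-TRA (helper51): translation of the last coordinates by a function of the first -/

set_option autoImplicit false

namespace Pool.Agent.H2.BD

open MeasureTheory

namespace TRAaux

/-- splitting the coordinates -/
noncomputable def T (l e : ℕ) : (Fin (l + e) → ℝ) ≃ᵐ (Fin l → ℝ) × (Fin e → ℝ) :=
  (MeasurableEquiv.piCongrLeft (fun _ : Fin (l + e) => ℝ) finSumFinEquiv).symm.trans
    (MeasurableEquiv.sumPiEquivProdPi (fun _ : Fin l ⊕ Fin e => ℝ))

lemma T_apply (l e : ℕ) (x : Fin (l + e) → ℝ) :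
    T l e x = (fun i => x (Fin.castAdd e i), fun j => x (Fin.natAdd l j)) := by
  refine Prod.ext ?_ ?_
  · funext i
    rfl
  · funext j
    rfl

lemma T_mp (l e : ℕ) : MeasurePreserving (T l e) volume volume :=
  (volume_measurePreserving_sumPiEquivProdPi (fun _ : Fin l ⊕ Fin e => ℝ)).comp
    ((volume_measurePreserving_piCongrLeft (fun _ : Fin (l + e) => ℝ) finSumFinEquiv).symm _)

lemma T_pre (l e : ℕ) : T l e ⁻¹' (Set.Icc (0 : Fin l → ℝ) 1 ×ˢ Set.Icc (0 : Fin e → ℝ) 1) =
    Set.Icc (0 : Fin (l + e) → ℝ) 1 := by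
  ext x
  rw [Set.mem_preimage, T_apply, Set.mem_prod, Set.mem_Icc, Set.mem_Icc, Set.mem_Icc]
  simp only [Pi.le_def, Pi.zero_apply, Pi.one_apply]
  constructor
  · rintro ⟨⟨h1, h2⟩, h3, h4⟩
    constructor
    · intro i
      refine Fin.addCases (fun i => h1 i) (fun j => h3 j) i
    · intro i
      refine Fin.addCases (fun i => h2 i) (fun j => h4 j) i
  · rintro ⟨h1, h2⟩
    exact ⟨⟨fun i => h1 _, fun i => h2 _⟩, fun i => h1 _, fun i => h2 _⟩

lemma cube_vol (n : ℕ) : volume (Set.Icc (0 : Fin n → ℝ) 1) = 1 := by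
  rw [Real.volume_Icc_pi]
  simp

end TRAaux

open TRAaux

theorem cube_tra {l e : ℕ} (f : (Fin e → ℝ) → ℝ) (hf : Measurable f)
    (hi : IntegrableOn f (Set.Icc (0 : Fin e → ℝ) 1))
    (hsh : ∀ (g : ℝ → ℝ) (v : Fin e → ℝ),
      ∫ u in Set.Icc (0 : Fin e → ℝ) 1, g (f (u + v)) = ∫ u in Set.Icc (0 : Fin e → ℝ) 1, g (f u))
    (φ : (Fin l → ℝ) → (Fin e → ℝ)) (hφ : Measurable φ) :
    ∫ x in Set.Icc (0 : Fin (l + e) → ℝ) 1,
        f (fun j => x (Fin.natAdd l j) + φ (fun i => x (Fin.castAdd e i)) j) =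
      ∫ u in Set.Icc (0 : Fin e → ℝ) 1, f u := by
  have hfin : ∀ n : ℕ, IsProbabilityMeasure (volume.restrict (Set.Icc (0 : Fin n → ℝ) 1)) := by
    intro n
    constructor
    rw [Measure.restrict_apply_univ, cube_vol]
  have h1 : ∫ x in Set.Icc (0 : Fin (l + e) → ℝ) 1,
        f (fun j => x (Fin.natAdd l j) + φ (fun i => x (Fin.castAdd e i)) j) =
      ∫ z in (Set.Icc (0 : Fin l → ℝ) 1 ×ˢ Set.Icc (0 : Fin e → ℝ) 1), f (z.2 + φ z.1) := by
    rw [← (T_mp l e).setIntegral_preimage_emb (T l e).measurableEmbedding, T_pre]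
    refine setIntegral_congr_fun measurableSet_Icc fun x _ => ?_
    simp only [T_apply]
    rfl
  have hint : ∀ v : Fin e → ℝ, IntegrableOn (fun u => f (u + v)) (Set.Icc (0 : Fin e → ℝ) 1) := by
    intro v
    have h2 := hsh (fun y => |y| + 1) v
    have h3 : ∫ u in Set.Icc (0 : Fin e → ℝ) 1, (|f u| + 1) ≠ 0 := by
      rw [integral_add hi.abs (integrable_const _), integral_const]
      have h4 : 0 ≤ ∫ u in Set.Icc (0 : Fin e → ℝ) 1, |f u| := integral_nonneg fun _ => abs_nonneg _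
      simp only [measureReal_def, Measure.restrict_apply_univ, cube_vol]
      simp only [ENNReal.toReal_one, smul_eq_mul, mul_one]
      linarith
    have h5 : IntegrableOn (fun u => |f (u + v)| + 1) (Set.Icc (0 : Fin e → ℝ) 1) := by
      refine Integrable.of_integral_ne_zero ?_
      rw [h2]
      exact h3
    refine Integrable.mono h5 (hf.comp (measurable_id.add_const v)).aestronglyMeasurable ?_
    refine Filter.Eventually.of_forall fun u => ?_
    simp only [Real.norm_eq_abs]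
    rw [abs_of_nonneg (by positivity : (0 : ℝ) ≤ |f (u + v)| + 1)]
    linarith
  have hm : Measurable (fun z : (Fin l → ℝ) × (Fin e → ℝ) => f (z.2 + φ z.1)) :=
    hf.comp (measurable_snd.add (hφ.comp measurable_fst))
  have h2 : IntegrableOn (fun z : (Fin l → ℝ) × (Fin e → ℝ) => f (z.2 + φ z.1))
      (Set.Icc (0 : Fin l → ℝ) 1 ×ˢ Set.Icc (0 : Fin e → ℝ) 1) (volume.prod volume) := by
    rw [IntegrableOn, ← Measure.prod_restrict]
    have := hfin l
    have := hfin e
    rw [integrable_prod_iff hm.aestronglyMeasurable]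
    constructor
    · exact Filter.Eventually.of_forall fun t => hint (φ t)
    · have h3 : ∀ t : Fin l → ℝ, ∫ u in Set.Icc (0 : Fin e → ℝ) 1, ‖f (u + φ t)‖ =
          ∫ u in Set.Icc (0 : Fin e → ℝ) 1, ‖f u‖ := fun t => hsh (fun y => ‖y‖) (φ t)
      simp only [h3]
      exact integrable_const _
  rw [h1, Measure.volume_eq_prod, setIntegral_prod _ h2]
  have h3 : ∀ t : Fin l → ℝ, ∫ u in Set.Icc (0 : Fin e → ℝ) 1, f (u + φ t) =
      ∫ u in Set.Icc (0 : Fin e → ℝ) 1, f u := fun t => hsh (fun y => y) (φ t)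
  simp only [h3]
  rw [integral_const]
  simp only [measureReal_def, Measure.restrict_apply_univ, cube_vol]
  simp

end Pool.Agent.H2.BD
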