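import Pool.Agent.H2.BD.Class
import Pool.Agent.H2.BD.ADD
import Pool.Agent.H2.BD.TRA
import Pool.Agent.H2.BD.COE
import Pool.Agent.H2.PG.Perm

set_option autoImplicit false

/-! Monomial specialisations as specialisations at one. -/

namespace Pool.Agent.H2.BD

open MeasureTheory Pool.Agent.H261R2.CM

section
variable {n : ℕ}

theorem tv_setOne (Y : Finset (Fin n)) (Q : MvPolynomial (Fin n) ℤ) (x : Fin n → ℝ) :
    tv (setOne Y Q) x = tv Q (fun i => if i ∈ Y then 0 else x i) := by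
  classical
  conv_lhs => rw [Q.as_sum, map_sum, J.tv_eq, map_sum]
  conv_rhs => rw [Q.as_sum, J.tv_eq, map_sum]
  refine Finset.sum_congr rfl fun s _ => ?_
  rw [← J.tv_eq, ← J.tv_eq, tv_setOne_mono, J.tv_monomial,
    ← Finset.prod_sdiff (Finset.subset_univ Y)]
  have h1 : ∏ l ∈ Y, J.zz (fun i => if i ∈ Y then 0 else x i) l ^ (s l) = 1 := by
    refine Finset.prod_eq_one fun l hl => ?_
    unfold J.zz
    beta_reduce
    rw [if_pos hl]
    simp
  rw [h1, mul_one]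
  congr 1
  refine Finset.prod_congr rfl fun l hl => ?_
  unfold J.zz
  beta_reduce
  rw [if_neg (Finset.mem_sdiff.1 hl).2]

end

variable {l e : ℕ}

/-- the exponent -/
noncomputable def ex (m : ℕ) (A : Fin l → Fin e → ℤ) (s : Fin e →₀ ℕ) : Fin (l + e) →₀ ℕ :=
  Finsupp.equivFunOnFinite.symm (Fin.addCases
    (fun i => (∑ j, ((s j : ℤ) * A i j + m * |A i j|)).toNat) (fun j => s j))

theorem ex_nat (m : ℕ) (A : Fin l → Fin e → ℤ) (s : Fin e →₀ ℕ) (j : Fin e) :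
    ex m A s (Fin.natAdd l j) = s j := by
  unfold ex
  simp

theorem ex_cast (m : ℕ) (A : Fin l → Fin e → ℤ) (s : Fin e →₀ ℕ) (hs : ∀ j, s j ≤ m)
    (i : Fin l) : ((ex m A s (Fin.castAdd e i) : ℕ) : ℤ) =
      ∑ j, ((s j : ℤ) * A i j + m * |A i j|) := by
  unfold ex
  simp only [Finsupp.equivFunOnFinite_symm_apply_apply, Fin.addCases_left]
  rw [Int.toNat_of_nonneg]
  refine Finset.sum_nonneg fun j _ => ?_
  have h1 : (s j : ℤ) ≤ m := by exact_mod_cast hs j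
  have h2 : -|A i j| ≤ A i j := neg_abs_le _
  have h3 : 0 ≤ |A i j| := abs_nonneg _
  have h4 : (0 : ℤ) ≤ s j := Int.natCast_nonneg _
  nlinarith

theorem ex_inj (m : ℕ) (A : Fin l → Fin e → ℤ) {s s' : Fin e →₀ ℕ} (h : ex m A s = ex m A s') :
    s = s' := by
  ext j
  rw [← ex_nat m A s j, h, ex_nat]

/-- the lift -/
noncomputable def lift (m : ℕ) (A : Fin l → Fin e → ℤ) (D : MvPolynomial (Fin e) ℤ) :
    MvPolynomial (Fin (l + e)) ℤ :=
  ∑ s ∈ D.support, MvPolynomial.monomial (ex m A s) (D.coeff s)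

theorem lift_supp (m : ℕ) (A : Fin l → Fin e → ℤ) (D : MvPolynomial (Fin e) ℤ)
    {s' : Fin (l + e) →₀ ℕ} (h : s' ∈ (lift m A D).support) : ∃ s ∈ D.support, s' = ex m A s := by
  classical
  by_contra hcon
  push Not at hcon
  rw [MvPolynomial.mem_support_iff] at h
  apply h
  unfold lift
  rw [MvPolynomial.coeff_sum]
  refine Finset.sum_eq_zero fun s hs => ?_
  rw [MvPolynomial.coeff_monomial, if_neg (Ne.symm (hcon s hs))]

theorem lift_coeff (m : ℕ) (A : Fin l → Fin e → ℤ) (D : MvPolynomial (Fin e) ℤ)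
    {s : Fin e →₀ ℕ} (h : s ∈ D.support) : (lift m A D).coeff (ex m A s) = D.coeff s := by
  classical
  unfold lift
  rw [MvPolynomial.coeff_sum, Finset.sum_eq_single s]
  · rw [MvPolynomial.coeff_monomial, if_pos rfl]
  · intro s' _ hne
    rw [MvPolynomial.coeff_monomial, if_neg fun h => hne (ex_inj m A h)]
  · intro h'; exact absurd h h'

/-- the new variables -/
def YY (l e : ℕ) : Finset (Fin (l + e)) := Finset.univ.image (Fin.natAdd l)

theorem lift_deg (m : ℕ) (A : Fin l → Fin e → ℤ) (D : MvPolynomial (Fin e) ℤ)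
    (hD : ∀ j, D.degreeOf j ≤ m) : ∀ i ∈ YY l e, (lift m A D).degreeOf i ≤ m := by
  intro i hi
  obtain ⟨j, -, rfl⟩ := Finset.mem_image.1 hi
  rw [MvPolynomial.degreeOf_le_iff]
  intro s' hs'
  obtain ⟨s, hs, rfl⟩ := lift_supp m A D hs'
  rw [ex_nat]
  exact (MvPolynomial.monomial_le_degreeOf j hs).trans (hD j)

theorem lift_prim (m : ℕ) (A : Fin l → Fin e → ℤ) (D : MvPolynomial (Fin e) ℤ) (hD : D ≠ 0) :
    ∀ Q, Q ∣ lift m A D → (∀ i ∈ YY l e, Q.degreeOf i = 0) → ∃ a : ℕ, mM Q = a := by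
  intro Q hQ hY
  obtain ⟨s0, hs0⟩ := MvPolynomial.support_nonempty.2 hD
  have h1 := dvd_coe (YY l e) (lift m A D) Q hQ hY (ex m A s0) (by
    intro s' hs' hag
    obtain ⟨s, hs, rfl⟩ := lift_supp m A D hs'
    congr 1
    ext j
    have := hag (Fin.natAdd l j) (Finset.mem_image.2 ⟨j, Finset.mem_univ _, rfl⟩)
    rw [ex_nat, ex_nat] at this
    exact this)
  rw [lift_coeff m A D hs0] at h1
  obtain ⟨a, b, -, hb, hQ2⟩ :=
    (MvPolynomial.dvd_monomial_iff_exists (MvPolynomial.mem_support_iff.1 hs0)).1 h1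
  have hb0 : b ≠ 0 := by
    rintro rfl
    obtain ⟨c, hc⟩ := hb
    rw [zero_mul] at hc
    exact MvPolynomial.mem_support_iff.1 hs0 hc
  exact ⟨b.natAbs, by rw [hQ2, Pool.Agent.H2.PG.mM_monomial a b hb0]⟩

theorem norm_lift (m : ℕ) (A : Fin l → Fin e → ℤ) (D : MvPolynomial (Fin e) ℤ)
    (hD : ∀ j, D.degreeOf j ≤ m) (x : Fin (l + e) → ℝ) :
    ‖tv (lift m A D) x‖ = ‖tv D (fun j => x (Fin.natAdd l j) +
      ∑ i, x (Fin.castAdd e i) * (A i j : ℝ))‖ := by
  classical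
  have h1 : tv (lift m A D) x = Complex.exp (2 * (Real.pi : ℂ) * Complex.I *
      ((∑ i, x (Fin.castAdd e i) * ∑ j, (m : ℝ) * |(A i j : ℝ)| : ℝ) : ℂ)) *
      tv D (fun j => x (Fin.natAdd l j) + ∑ i, x (Fin.castAdd e i) * (A i j : ℝ)) := by
    conv_rhs => rw [D.as_sum, J.tv_eq, map_sum]
    unfold lift
    rw [J.tv_eq, map_sum, Finset.mul_sum]
    refine Finset.sum_congr rfl fun s hs => ?_
    rw [← J.tv_eq, ← J.tv_eq, J.tv_monomial, J.tv_monomial, Fin.prod_univ_add]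
    simp only [ex_nat, J.zz, ← Complex.exp_nat_mul, ← Complex.exp_sum]
    have h2 : ∀ i, ((ex m A s (Fin.castAdd e i) : ℕ) : ℂ) =
        ∑ j, ((s j : ℂ) * (A i j : ℂ) + m * ((|(A i j : ℝ)| : ℝ) : ℂ)) := by
      intro i
      have := ex_cast m A s (fun j => (MvPolynomial.monomial_le_degreeOf j hs).trans (hD j)) i
      have h3 : (((ex m A s (Fin.castAdd e i) : ℕ) : ℤ) : ℂ) =
          ((∑ j, ((s j : ℤ) * A i j + m * |A i j|) : ℤ) : ℂ) := by rw [this]
      rw [Int.cast_natCast] at h3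
      rw [h3, Int.cast_sum]
      refine Finset.sum_congr rfl fun j _ => ?_
      have h7 : ((|(A i j : ℝ)| : ℝ) : ℂ) = ((|A i j| : ℤ) : ℂ) := by
        rw [← Int.cast_abs, Complex.ofReal_intCast]
      rw [h7, Int.cast_add, Int.cast_mul, Int.cast_mul, Int.cast_natCast, Int.cast_natCast]
    rw [← Complex.exp_add]
    have h4 : (∑ i, ((ex m A s (Fin.castAdd e i) : ℕ) : ℂ) *
          (2 * (Real.pi : ℂ) * Complex.I * ((x (Fin.castAdd e i) : ℝ) : ℂ))) +
        ∑ j, ((s j : ℕ) : ℂ) * (2 * (Real.pi : ℂ) * Complex.I * ((x (Fin.natAdd l j) : ℝ) : ℂ)) =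
        2 * (Real.pi : ℂ) * Complex.I *
          ((∑ i, x (Fin.castAdd e i) * ∑ j, (m : ℝ) * |(A i j : ℝ)| : ℝ) : ℂ) +
        ∑ j, ((s j : ℕ) : ℂ) * (2 * (Real.pi : ℂ) * Complex.I *
          ((x (Fin.natAdd l j) + ∑ i, x (Fin.castAdd e i) * (A i j : ℝ) : ℝ) : ℂ)) := by
      simp only [h2]
      push_cast
      simp only [Finset.sum_mul, Finset.mul_sum, mul_add, add_mul, Finset.sum_add_distrib]
      have h5 : ∑ i, ∑ j, (s j : ℂ) * (A i j : ℂ) *
          (2 * (Real.pi : ℂ) * Complex.I * ((x (Fin.castAdd e i) : ℝ) : ℂ)) =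
          ∑ j, ∑ i, (s j : ℂ) * (2 * (Real.pi : ℂ) * Complex.I *
            (((x (Fin.castAdd e i) : ℝ) : ℂ) * (A i j : ℂ))) := by
        rw [Finset.sum_comm]
        refine Finset.sum_congr rfl fun j _ => Finset.sum_congr rfl fun i _ => ?_
        ring
      have h6 : ∑ i, ∑ j, (m : ℂ) * ((|(A i j : ℝ)| : ℝ) : ℂ) *
          (2 * (Real.pi : ℂ) * Complex.I * ((x (Fin.castAdd e i) : ℝ) : ℂ)) =
          ∑ i, ∑ j, 2 * (Real.pi : ℂ) * Complex.I * (((x (Fin.castAdd e i) : ℝ) : ℂ) *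
            ((m : ℂ) * ((|(A i j : ℝ)| : ℝ) : ℂ))) := by
        refine Finset.sum_congr rfl fun i _ => Finset.sum_congr rfl fun j _ => ?_
        ring
      rw [h5, h6]
      ring
    rw [mul_left_comm, ← Complex.exp_add, ← h4]
  rw [h1, norm_mul]
  have h2 : ‖Complex.exp (2 * (Real.pi : ℂ) * Complex.I *
      ((∑ i, x (Fin.castAdd e i) * ∑ j, (m : ℝ) * |(A i j : ℝ)| : ℝ) : ℂ))‖ = 1 := by
    exact J.norm_zz (k := 1) (fun _ => ∑ i, x (Fin.castAdd e i) * ∑ j, (m : ℝ) * |(A i j : ℝ)|) 0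
  rw [h2, one_mul]

theorem mM_lift (m : ℕ) (A : Fin l → Fin e → ℤ) (D : MvPolynomial (Fin e) ℤ) (hD0 : D ≠ 0)
    (hD : ∀ j, D.degreeOf j ≤ m) : mM (lift m A D) = mM D := by
  unfold mM
  congr 1
  have h1 := cube_tra (l := l) (fun u : Fin e → ℝ => Real.log ‖tv D u‖)
    (Real.measurable_log.comp (Pool.Agent.H2.PG.tv_cont D).norm.measurable) (F_integrable hD0)
    (fun g v => Pool.Agent.H2.PG.shift (fun u => g (Real.log ‖tv D u‖))
      (fun x i => by simp only [Pool.Agent.H2.PG.tv_per]) v)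
    (fun t j => ∑ i, t i * (A i j : ℝ)) (by fun_prop)
  rw [← h1]
  refine integral_congr_ae (Filter.Eventually.of_forall fun x => ?_)
  simp only
  rw [norm_lift m A D hD]

theorem mM_one_lift (m : ℕ) (A : Fin l → Fin e → ℤ) (D : MvPolynomial (Fin e) ℤ)
    (hD : ∀ j, D.degreeOf j ≤ m) : mM (setOne (YY l e) (lift m A D)) =
      Real.exp (∫ t in Set.Icc (0 : Fin l → ℝ) 1,
        Real.log ‖tv D (fun j => ∑ i, t i * (A i j : ℝ))‖) := by
  unfold mM
  congr 1
  have h1 := cube_add (e := e) (fun t : Fin l → ℝ =>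
    Real.log ‖tv D (fun j => ∑ i, t i * (A i j : ℝ))‖) (by
      refine Real.measurable_log.comp (Continuous.measurable ?_)
      exact ((Pool.Agent.H2.PG.tv_cont D).comp (by fun_prop)).norm)
  rw [← h1]
  refine integral_congr_ae (Filter.Eventually.of_forall fun x => ?_)
  simp only
  rw [tv_setOne, norm_lift m A D hD]
  congr 2
  have h2 : ∀ j, Fin.natAdd l j ∈ YY l e := fun j => Finset.mem_image.2 ⟨j, Finset.mem_univ _, rfl⟩
  have h3 : ∀ i, Fin.castAdd e i ∉ YY l e := by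
    intro i hi
    obtain ⟨j, -, hj⟩ := Finset.mem_image.1 hi
    have := congrArg Fin.val hj
    simp at this
    omega
  congr 1
  funext j
  rw [if_pos (h2 j), zero_add]
  refine Finset.sum_congr rfl fun i _ => ?_
  rw [if_neg (h3 i)]

/-- the Mahler measures of the monomial specialisations -/
def specs (κ : ℝ → ℕ) : Set ℝ :=
  {x : ℝ | ∃ e l : ℕ, 1 ≤ e ∧ ∃ (D : MvPolynomial (Fin e) ℤ) (A : Fin l → Fin e → ℤ),
    (∀ j, D.degreeOf j ≤ κ x) ∧ (∃ t : Fin l → ℝ, tv D (fun j => ∑ i, t i * (A i j : ℝ)) ≠ 0) ∧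
    x = Real.exp (∫ t in Set.Icc (0 : Fin l → ℝ) 1,
      Real.log ‖tv D (fun j => ∑ i, t i * (A i j : ℝ))‖) ∧ mM D ≤ κ x}

theorem specs_sub (κ : ℝ → ℕ) : specs κ ⊆ lifts κ := by
  rintro x ⟨e, l, he, D, A, hdeg, ⟨t, ht⟩, hx, hm⟩
  have hD0 : D ≠ 0 := by
    rintro rfl
    apply ht
    rw [J.tv_eq, map_zero]
  refine ⟨l + e, by omega, lift (κ x) A D, YY l e, lift_deg _ A D hdeg, lift_prim _ A D hD0, ?_, ?_,
    ?_⟩
  · intro h0
    apply ht
    have h1 : ∀ y : Fin (l + e) → ℝ, ‖tv (setOne (YY l e) (lift (κ x) A D)) y‖ =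
        ‖tv D (fun j => ∑ i, y (Fin.castAdd e i) * (A i j : ℝ))‖ := by
      intro y
      rw [tv_setOne, norm_lift _ A D hdeg]
      have h2 : ∀ j, Fin.natAdd l j ∈ YY l e :=
        fun j => Finset.mem_image.2 ⟨j, Finset.mem_univ _, rfl⟩
      have h3 : ∀ i, Fin.castAdd e i ∉ YY l e := by
        intro i hi
        obtain ⟨j, -, hj⟩ := Finset.mem_image.1 hi
        have := congrArg Fin.val hj
        simp at this
        omega
      congr 2
      funext j
      rw [if_pos (h2 j), zero_add]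
      refine Finset.sum_congr rfl fun i _ => ?_
      rw [if_neg (h3 i)]
    have h2 := h1 (Fin.addCases t (fun _ => 0))
    rw [h0, J.tv_eq, map_zero, norm_zero] at h2
    simp only [Fin.addCases_left] at h2
    exact norm_eq_zero.1 h2.symm
  · rw [mM_one_lift _ A D hdeg]
    exact hx
  · rw [mM_lift _ A D hD0 hdeg]
    exact hm

end Pool.Agent.H2.BD
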